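import Mathlib

set_option autoImplicit false

/-!
# Two-coloured planar point sets with no monochromatic circle

We exhibit five red and five blue points of the triangular lattice such that no circle and no
straight line that contains at least three of the ten points is monochromatic, neither colour class
lies on a circle or on a line, and the ten points do not lie, up to inversion, on an ellipse, on two
disjoint circles, on a circular cubic or on a bicircular quartic.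

The reason for the last fact is that all these curves, and their images under inversions, are zero
sets of non-zero polynomials of the nine-dimensional space
`a (x²+y²)² + (u x + v y) (x²+y²) + q x² + r x y + s y² + d x + e y + g`,
and the ten points impose nine independent conditions on this space.
-/

namespace Pool.Agent.Results.MP_048963_co.TenPoints

/-- The Euclidean plane, in coordinates. -/
abbrev Pt : Type := ℝ × ℝ

/-- A (round) circle: the points at distance `r > 0` from a centre. Lines are not circles. -/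
def IsCircle (C : Set Pt) : Prop :=
  ∃ (c : Pt) (r : ℝ), 0 < r ∧ C = {p : Pt | (p.1 - c.1) ^ 2 + (p.2 - c.2) ^ 2 = r ^ 2}

/-- A straight line. -/
def IsLine (L : Set Pt) : Prop :=
  ∃ a b c : ℝ, ¬ (a = 0 ∧ b = 0) ∧ L = {p : Pt | a * p.1 + b * p.2 = c}

/-- `C` contains at least three points of the coloured set `R ∪ B` (red points `R`, blue points `B`)
and all of them have the same colour. -/
def IsMonochromatic (C : Set Pt) (R B : Finset Pt) : Prop :=
  3 ≤ (C ∩ ((R : Set Pt) ∪ B)).ncard ∧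
    (C ∩ ((R : Set Pt) ∪ B) ⊆ R ∨ C ∩ ((R : Set Pt) ∪ B) ⊆ B)

/-- The inversion with centre `c` and radius `k`. -/
noncomputable def inversion (c : Pt) (k : ℝ) (p : Pt) : Pt :=
  (c.1 + k ^ 2 * (p.1 - c.1) / ((p.1 - c.1) ^ 2 + (p.2 - c.2) ^ 2),
   c.2 + k ^ 2 * (p.2 - c.2) / ((p.1 - c.1) ^ 2 + (p.2 - c.2) ^ 2))

/-- Type (i): an ellipse (all conics of negative discriminant, so that single points and the empty
set are included as well). -/
def IsEllipse (Γ : Set Pt) : Prop :=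
  ∃ a b c d e f : ℝ, b ^ 2 < 4 * a * c ∧
    Γ = {p : Pt | a * p.1 ^ 2 + b * p.1 * p.2 + c * p.2 ^ 2 + d * p.1 + e * p.2 + f = 0}

/-- Type (ii): the union of two disjoint circles. -/
def IsTwoDisjointCircles (Γ : Set Pt) : Prop :=
  ∃ C D : Set Pt, IsCircle C ∧ IsCircle D ∧ C ∩ D = ∅ ∧ Γ = C ∪ D

/-- Type (iii), without any condition on the singularities: the set of affine points of a circular
cubic `(u x + v y) (x² + y²) + q(x, y) = 0`. Elliptic and acnodal ones are special cases. -/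
def IsCircularCubic (Γ : Set Pt) : Prop :=
  ∃ u v q r s d e g : ℝ, ¬ (u = 0 ∧ v = 0) ∧
    Γ = {p : Pt | (u * p.1 + v * p.2) * (p.1 ^ 2 + p.2 ^ 2) + q * p.1 ^ 2 + r * p.1 * p.2 +
      s * p.2 ^ 2 + d * p.1 + e * p.2 + g = 0}

/-- Type (iv), without any condition on the singularities: the image of a circular cubic under an
inversion whose centre is off the cubic. The centre itself, which is the image of the real point at
infinity of the cubic, is included. -/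
def IsBicircularQuartic (Γ : Set Pt) : Prop :=
  ∃ (Δ : Set Pt) (c : Pt) (k : ℝ), IsCircularCubic Δ ∧ c ∉ Δ ∧ 0 < k ∧
    Γ = inversion c k '' Δ ∪ {c}

/-- `S` lies up to inversion on `Γ`: either `S ⊆ Γ`, or `ι(S) ⊆ Γ` for an inversion `ι` whose centre
is not in `S`. -/
def LiesUpToInversion (S Γ : Set Pt) : Prop :=
  S ⊆ Γ ∨ ∃ (c : Pt) (k : ℝ), 0 < k ∧ c ∉ S ∧ inversion c k '' S ⊆ Γ

/-! ### The nine-dimensional space of polynomials -/

/-- The general polynomial of the nine-dimensional space. -/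
def gen (a u v q r s d e g x y : ℝ) : ℝ :=
  a * (x ^ 2 + y ^ 2) ^ 2 + (u * x + v * y) * (x ^ 2 + y ^ 2) + q * x ^ 2 + r * x * y + s * y ^ 2 +
    d * x + e * y + g

/-- `S` lies on the zero set of a non-zero polynomial of the nine-dimensional space. -/
def OnBig (S : Set Pt) : Prop :=
  ∃ a u v q r s d e g : ℝ,
    ¬ (a = 0 ∧ u = 0 ∧ v = 0 ∧ q = 0 ∧ r = 0 ∧ s = 0 ∧ d = 0 ∧ e = 0 ∧ g = 0) ∧
    ∀ p ∈ S, gen a u v q r s d e g p.1 p.2 = 0

lemma OnBig.mono {S T : Set Pt} (h : S ⊆ T) (hT : OnBig T) : OnBig S := by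
  obtain ⟨a, u, v, q, r, s, d, e, g, h1, h2⟩ := hT
  exact ⟨a, u, v, q, r, s, d, e, g, h1, fun p hp => h2 p (h hp)⟩

/-- coefficients after translation -/
lemma gen_translate (a u v q r s d e g c1 c2 : ℝ)
    (hne : ¬ (a = 0 ∧ u = 0 ∧ v = 0 ∧ q = 0 ∧ r = 0 ∧ s = 0 ∧ d = 0 ∧ e = 0 ∧ g = 0)) :
    ∃ a' u' v' q' r' s' d' e' g' : ℝ,
      ¬ (a' = 0 ∧ u' = 0 ∧ v' = 0 ∧ q' = 0 ∧ r' = 0 ∧ s' = 0 ∧ d' = 0 ∧ e' = 0 ∧ g' = 0) ∧
      a' = a ∧
      ∀ x y : ℝ, gen a' u' v' q' r' s' d' e' g' x y = gen a u v q r s d e g (x + c1) (y + c2) := by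
  refine ⟨a, u + 4 * a * c1, v + 4 * a * c2,
    q + 2 * a * (c1 ^ 2 + c2 ^ 2) + 4 * a * c1 ^ 2 + (u * c1 + v * c2) + 2 * c1 * u,
    r + 8 * a * c1 * c2 + 2 * (c1 * v + c2 * u),
    s + 2 * a * (c1 ^ 2 + c2 ^ 2) + 4 * a * c2 ^ 2 + (u * c1 + v * c2) + 2 * c2 * v,
    d + 4 * a * (c1 ^ 2 + c2 ^ 2) * c1 + 2 * c1 * (u * c1 + v * c2) + (c1 ^ 2 + c2 ^ 2) * u +
      2 * q * c1 + r * c2,
    e + 4 * a * (c1 ^ 2 + c2 ^ 2) * c2 + 2 * c2 * (u * c1 + v * c2) + (c1 ^ 2 + c2 ^ 2) * v +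
      2 * s * c2 + r * c1,
    g + a * (c1 ^ 2 + c2 ^ 2) ^ 2 + (c1 ^ 2 + c2 ^ 2) * (u * c1 + v * c2) + q * c1 ^ 2 +
      r * c1 * c2 + s * c2 ^ 2 + d * c1 + e * c2, ?_, rfl, ?_⟩
  · rintro ⟨ha, hu, hv, hq, hr, hs, hd, he, hg⟩
    subst ha
    have hu' : u = 0 := by linarith
    have hv' : v = 0 := by linarith
    subst hu'; subst hv'
    have hq' : q = 0 := by linarith
    have hr' : r = 0 := by linarith
    have hs' : s = 0 := by linarith
    subst hq'; subst hr'; subst hs'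
    have hd' : d = 0 := by linarith
    have he' : e = 0 := by linarith
    subst hd'; subst he'
    have hg' : g = 0 := by linarith
    exact hne ⟨rfl, rfl, rfl, rfl, rfl, rfl, rfl, rfl, hg'⟩
  · intro x y
    unfold gen
    ring

/-- inversion at the origin -/
lemma gen_inv_zero (a u v q r s d e g k x y : ℝ) (h : x ^ 2 + y ^ 2 ≠ 0) :
    gen g (k ^ 2 * d) (k ^ 2 * e) (k ^ 4 * q) (k ^ 4 * r) (k ^ 4 * s) (k ^ 6 * u) (k ^ 6 * v)
      (k ^ 8 * a) x y =
    (x ^ 2 + y ^ 2) ^ 2 * gen a u v q r s d e g (k ^ 2 * x / (x ^ 2 + y ^ 2))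
      (k ^ 2 * y / (x ^ 2 + y ^ 2)) := by
  unfold gen
  field_simp
  ring

/-- Pulling back a polynomial of the space along an inversion. -/
lemma pull_back (a u v q r s d e g : ℝ) (c : Pt) (k : ℝ) (hk : 0 < k)
    (hne : ¬ (a = 0 ∧ u = 0 ∧ v = 0 ∧ q = 0 ∧ r = 0 ∧ s = 0 ∧ d = 0 ∧ e = 0 ∧ g = 0)) :
    ∃ a' u' v' q' r' s' d' e' g' : ℝ,
      ¬ (a' = 0 ∧ u' = 0 ∧ v' = 0 ∧ q' = 0 ∧ r' = 0 ∧ s' = 0 ∧ d' = 0 ∧ e' = 0 ∧ g' = 0) ∧
      (∀ p : Pt, p ≠ c → gen a u v q r s d e g (inversion c k p).1 (inversion c k p).2 = 0 →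
        gen a' u' v' q' r' s' d' e' g' p.1 p.2 = 0) ∧
      (a = 0 → gen a' u' v' q' r' s' d' e' g' c.1 c.2 = 0) := by
  obtain ⟨a1, u1, v1, q1, r1, s1, d1, e1, g1, hne1, ha1, h1⟩ :=
    gen_translate a u v q r s d e g c.1 c.2 hne
  have hk2 : k ^ 2 ≠ 0 := by positivity
  have hk4 : k ^ 4 ≠ 0 := by positivity
  have hk6 : k ^ 6 ≠ 0 := by positivity
  have hk8 : k ^ 8 ≠ 0 := by positivity
  have hne2 : ¬ (g1 = 0 ∧ k ^ 2 * d1 = 0 ∧ k ^ 2 * e1 = 0 ∧ k ^ 4 * q1 = 0 ∧ k ^ 4 * r1 = 0 ∧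
      k ^ 4 * s1 = 0 ∧ k ^ 6 * u1 = 0 ∧ k ^ 6 * v1 = 0 ∧ k ^ 8 * a1 = 0) := by
    rintro ⟨h1, h2, h3, h4, h5, h6, h7, h8, h9⟩
    simp only [mul_eq_zero, hk2, hk4, hk6, hk8, false_or] at h2 h3 h4 h5 h6 h7 h8 h9
    exact hne1 ⟨h9, h7, h8, h4, h5, h6, h2, h3, h1⟩
  obtain ⟨a2, u2, v2, q2, r2, s2, d2, e2, g2, hne3, -, h2⟩ :=
    gen_translate g1 (k ^ 2 * d1) (k ^ 2 * e1) (k ^ 4 * q1) (k ^ 4 * r1) (k ^ 4 * s1)
      (k ^ 6 * u1) (k ^ 6 * v1) (k ^ 8 * a1) (-c.1) (-c.2) hne2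
  refine ⟨a2, u2, v2, q2, r2, s2, d2, e2, g2, hne3, ?_, ?_⟩
  · intro p hp h0
    rw [h2]
    have hN : (p.1 + -c.1) ^ 2 + (p.2 + -c.2) ^ 2 ≠ 0 := by
      intro h
      apply hp
      have e1 : p.1 + -c.1 = 0 := by nlinarith [sq_nonneg (p.1 + -c.1), sq_nonneg (p.2 + -c.2)]
      have e2 : p.2 + -c.2 = 0 := by nlinarith [sq_nonneg (p.1 + -c.1), sq_nonneg (p.2 + -c.2)]
      exact Prod.ext (by linarith) (by linarith)
    rw [gen_inv_zero _ _ _ _ _ _ _ _ _ _ _ _ hN, h1]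
    have e1 : k ^ 2 * (p.1 + -c.1) / ((p.1 + -c.1) ^ 2 + (p.2 + -c.2) ^ 2) + c.1 =
        (inversion c k p).1 := by
      unfold inversion
      simp only [← sub_eq_add_neg]
      ring
    have e2 : k ^ 2 * (p.2 + -c.2) / ((p.1 + -c.1) ^ 2 + (p.2 + -c.2) ^ 2) + c.2 =
        (inversion c k p).2 := by
      unfold inversion
      simp only [← sub_eq_add_neg]
      ring
    rw [e1, e2, h0, mul_zero]
  · intro ha
    rw [h2]
    have : a1 = 0 := ha1.trans ha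
    subst this
    unfold gen
    ring

/-- The property is invariant under inversions. -/
lemma OnBig.of_image {S : Set Pt} {c : Pt} {k : ℝ} (hk : 0 < k) (hc : c ∉ S)
    (h : OnBig (inversion c k '' S)) : OnBig S := by
  obtain ⟨a, u, v, q, r, s, d, e, g, hne, h1⟩ := h
  obtain ⟨a', u', v', q', r', s', d', e', g', hne', h2, -⟩ :=
    pull_back a u v q r s d e g c k hk hne
  refine ⟨a', u', v', q', r', s', d', e', g', hne', fun p hp => h2 p ?_ (h1 _ ⟨p, hp, rfl⟩)⟩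
  rintro rfl
  exact hc hp

lemma inversion_ne {c : Pt} {k : ℝ} (hk : 0 < k) {p : Pt} (hp : p ≠ c) :
    inversion c k p ≠ c := by
  intro h
  have hN : (p.1 - c.1) ^ 2 + (p.2 - c.2) ^ 2 ≠ 0 := by
    intro h
    apply hp
    have e1 : p.1 - c.1 = 0 := by nlinarith [sq_nonneg (p.1 - c.1), sq_nonneg (p.2 - c.2)]
    have e2 : p.2 - c.2 = 0 := by nlinarith [sq_nonneg (p.1 - c.1), sq_nonneg (p.2 - c.2)]
    exact Prod.ext (by linarith) (by linarith)
  have h1 := congrArg Prod.fst h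
  have h2 := congrArg Prod.snd h
  simp only [inversion] at h1 h2
  have e1 : k ^ 2 * (p.1 - c.1) / ((p.1 - c.1) ^ 2 + (p.2 - c.2) ^ 2) = 0 := by linarith
  have e2 : k ^ 2 * (p.2 - c.2) / ((p.1 - c.1) ^ 2 + (p.2 - c.2) ^ 2) = 0 := by linarith
  have hk2 : k ^ 2 ≠ 0 := by positivity
  rw [div_eq_zero_iff, mul_eq_zero] at e1 e2
  have f1 : p.1 - c.1 = 0 := by tauto
  have f2 : p.2 - c.2 = 0 := by tauto
  apply hN
  rw [f1, f2]
  norm_num

lemma inversion_inversion {c : Pt} {k : ℝ} (hk : 0 < k) {p : Pt} (hp : p ≠ c) :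
    inversion c k (inversion c k p) = p := by
  have hN : (p.1 - c.1) ^ 2 + (p.2 - c.2) ^ 2 ≠ 0 := by
    intro h
    apply hp
    have e1 : p.1 - c.1 = 0 := by nlinarith [sq_nonneg (p.1 - c.1), sq_nonneg (p.2 - c.2)]
    have e2 : p.2 - c.2 = 0 := by nlinarith [sq_nonneg (p.1 - c.1), sq_nonneg (p.2 - c.2)]
    exact Prod.ext (by linarith) (by linarith)
  have hk2 : k ≠ 0 := hk.ne'
  set N := (p.1 - c.1) ^ 2 + (p.2 - c.2) ^ 2 with hNdef
  have hM : (k ^ 2 * (p.1 - c.1) / N) ^ 2 + (k ^ 2 * (p.2 - c.2) / N) ^ 2 = k ^ 4 / N := by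
    have : (k ^ 2 * (p.1 - c.1) / N) ^ 2 + (k ^ 2 * (p.2 - c.2) / N) ^ 2 =
        k ^ 4 * ((p.1 - c.1) ^ 2 + (p.2 - c.2) ^ 2) / N ^ 2 := by ring_nf
    rw [this, ← hNdef]
    field_simp
  have e : inversion c k p = (c.1 + k ^ 2 * (p.1 - c.1) / N, c.2 + k ^ 2 * (p.2 - c.2) / N) := rfl
  rw [e]
  unfold inversion
  simp only [add_sub_cancel_left]
  rw [hM]
  ext
  · simp only
    field_simp
    ring
  · simp only
    field_simp
    ring

lemma onBig_circle_union {C D : Set Pt} (hC : IsCircle C) (hD : IsCircle D) : OnBig (C ∪ D) := by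
  obtain ⟨c, r, -, rfl⟩ := hC
  obtain ⟨c', r', -, rfl⟩ := hD
  refine ⟨1, -2 * c.1 - 2 * c'.1, -2 * c.2 - 2 * c'.2,
    4 * c.1 * c'.1 + (c.1 ^ 2 + c.2 ^ 2 - r ^ 2) + (c'.1 ^ 2 + c'.2 ^ 2 - r' ^ 2),
    4 * c.1 * c'.2 + 4 * c.2 * c'.1,
    4 * c.2 * c'.2 + (c.1 ^ 2 + c.2 ^ 2 - r ^ 2) + (c'.1 ^ 2 + c'.2 ^ 2 - r' ^ 2),
    -2 * c.1 * (c'.1 ^ 2 + c'.2 ^ 2 - r' ^ 2) - 2 * c'.1 * (c.1 ^ 2 + c.2 ^ 2 - r ^ 2),
    -2 * c.2 * (c'.1 ^ 2 + c'.2 ^ 2 - r' ^ 2) - 2 * c'.2 * (c.1 ^ 2 + c.2 ^ 2 - r ^ 2),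
    (c'.1 ^ 2 + c'.2 ^ 2 - r' ^ 2) * (c.1 ^ 2 + c.2 ^ 2 - r ^ 2), by simp, ?_⟩
  intro p hp
  have key : gen 1 (-2 * c.1 - 2 * c'.1) (-2 * c.2 - 2 * c'.2)
    (4 * c.1 * c'.1 + (c.1 ^ 2 + c.2 ^ 2 - r ^ 2) + (c'.1 ^ 2 + c'.2 ^ 2 - r' ^ 2))
    (4 * c.1 * c'.2 + 4 * c.2 * c'.1)
    (4 * c.2 * c'.2 + (c.1 ^ 2 + c.2 ^ 2 - r ^ 2) + (c'.1 ^ 2 + c'.2 ^ 2 - r' ^ 2))
    (-2 * c.1 * (c'.1 ^ 2 + c'.2 ^ 2 - r' ^ 2) - 2 * c'.1 * (c.1 ^ 2 + c.2 ^ 2 - r ^ 2))
    (-2 * c.2 * (c'.1 ^ 2 + c'.2 ^ 2 - r' ^ 2) - 2 * c'.2 * (c.1 ^ 2 + c.2 ^ 2 - r ^ 2))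
    ((c'.1 ^ 2 + c'.2 ^ 2 - r' ^ 2) * (c.1 ^ 2 + c.2 ^ 2 - r ^ 2)) p.1 p.2 =
    ((p.1 - c.1) ^ 2 + (p.2 - c.2) ^ 2 - r ^ 2) *
      ((p.1 - c'.1) ^ 2 + (p.2 - c'.2) ^ 2 - r' ^ 2) := by
    unfold gen
    ring
  rw [key]
  rcases hp with hp | hp
  · have : (p.1 - c.1) ^ 2 + (p.2 - c.2) ^ 2 = r ^ 2 := hp
    rw [this]
    ring
  · have : (p.1 - c'.1) ^ 2 + (p.2 - c'.2) ^ 2 = r' ^ 2 := hp
    rw [this]
    ring

/-- All curves of types (i)-(iv) are contained in zero sets of polynomials of the space. -/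
lemma onBig_of_type {Γ : Set Pt}
    (h : IsEllipse Γ ∨ IsTwoDisjointCircles Γ ∨ IsCircularCubic Γ ∨ IsBicircularQuartic Γ) :
    OnBig Γ := by
  rcases h with h | h | h | h
  · obtain ⟨a, b, c, d, e, f, hlt, rfl⟩ := h
    refine ⟨0, 0, 0, a, b, c, d, e, f, ?_, ?_⟩
    · rintro ⟨-, -, -, rfl, rfl, rfl, -, -, -⟩
      norm_num at hlt
    · intro p hp
      have hp' : a * p.1 ^ 2 + b * p.1 * p.2 + c * p.2 ^ 2 + d * p.1 + e * p.2 + f = 0 := hp
      unfold gen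
      linarith
  · obtain ⟨C, D, hC, hD, -, rfl⟩ := h
    exact onBig_circle_union hC hD
  · obtain ⟨u, v, q, r, s, d, e, g, huv, rfl⟩ := h
    refine ⟨0, u, v, q, r, s, d, e, g, ?_, ?_⟩
    · rintro ⟨-, hu, hv, -⟩
      exact huv ⟨hu, hv⟩
    · intro p hp
      have hp' : (u * p.1 + v * p.2) * (p.1 ^ 2 + p.2 ^ 2) + q * p.1 ^ 2 + r * p.1 * p.2 +
        s * p.2 ^ 2 + d * p.1 + e * p.2 + g = 0 := hp
      unfold gen
      linarith
  · obtain ⟨Δ, c, k, ⟨u, v, q, r, s, d, e, g, huv, rfl⟩, hc, hk, rfl⟩ := h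
    obtain ⟨a', u', v', q', r', s', d', e', g', hne', h2, h3⟩ :=
      pull_back 0 u v q r s d e g c k hk (by rintro ⟨-, hu, hv, -⟩; exact huv ⟨hu, hv⟩)
    refine ⟨a', u', v', q', r', s', d', e', g', hne', ?_⟩
    rintro p (⟨p0, hp0, rfl⟩ | hp)
    · have hp0c : p0 ≠ c := by
        rintro rfl
        exact hc hp0
      apply h2 _ (inversion_ne hk hp0c)
      rw [inversion_inversion hk hp0c]
      have hp' : (u * p0.1 + v * p0.2) * (p0.1 ^ 2 + p0.2 ^ 2) + q * p0.1 ^ 2 + r * p0.1 * p0.2 +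
        s * p0.2 ^ 2 + d * p0.1 + e * p0.2 + g = 0 := hp0
      unfold gen
      linarith
    · rw [Set.mem_singleton_iff] at hp
      subst hp
      exact h3 rfl

lemma onBig_of_liesUpToInversion {S Γ : Set Pt} (hΓ : OnBig Γ) (h : LiesUpToInversion S Γ) :
    OnBig S := by
  rcases h with h | ⟨c, k, hk, hc, h⟩
  · exact hΓ.mono h
  · exact OnBig.of_image hk hc (hΓ.mono h)

/-! ### The ten points -/

/-- the point `(X, Y √3)` of the triangular lattice -/
noncomputable def pt (X Y : ℤ) : Pt := ((X : ℝ), (Y : ℝ) * Real.sqrt 3)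

lemma pt_inj {X Y X' Y' : ℤ} : pt X Y = pt X' Y' ↔ X = X' ∧ Y = Y' := by
  unfold pt
  rw [Prod.mk.injEq]
  have h3 : Real.sqrt 3 ≠ 0 := by positivity
  constructor
  · rintro ⟨h1, h2⟩
    exact ⟨by exact_mod_cast h1, by exact_mod_cast mul_right_cancel₀ h3 h2⟩
  · rintro ⟨rfl, rfl⟩
    exact ⟨rfl, rfl⟩

open Classical in
/-- the five red points -/
noncomputable def red : Finset Pt := {pt 0 0, pt (-12) 6, pt (-5) (-1), pt 9 (-1), pt (-12) (-8)}

open Classical in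
/-- the five blue points -/
noncomputable def blue : Finset Pt := {pt 3 3, pt (-9) (-3), pt 0 (-2), pt (-6) 2, pt 6 (-6)}

/-- value of a generalised circle equation -/
def F (k l m n : ℝ) (p : Pt) : ℝ := k * (p.1 ^ 2 + p.2 ^ 2) + l * p.1 + m * p.2 + n

lemma F_pt (k l m n : ℝ) (X Y : ℤ) :
    F k l m n (pt X Y) = k * ((X : ℝ) ^ 2 + 3 * (Y : ℝ) ^ 2) + l * X + (m * Real.sqrt 3) * Y + n := by
  have h3 : Real.sqrt 3 ^ 2 = 3 := Real.sq_sqrt (by norm_num)
  unfold F pt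
  simp only [mul_pow, h3]
  ring

/-- A circle or a line is the zero set of a generalised circle equation. -/
lemma exists_F {C : Set Pt} (h : IsCircle C ∨ IsLine C) :
    ∃ k l m n : ℝ, ¬ (k = 0 ∧ l = 0 ∧ m = 0) ∧ C = {p | F k l m n p = 0} := by
  rcases h with ⟨c, r, hr, rfl⟩ | ⟨a, b, c, hab, rfl⟩
  · refine ⟨1, -2 * c.1, -2 * c.2, c.1 ^ 2 + c.2 ^ 2 - r ^ 2, by simp, ?_⟩
    ext p
    simp only [Set.mem_ofPred_eq, F]
    constructor <;> intro h <;> linarith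
  · refine ⟨0, a, b, -c, fun h => hab h.2, ?_⟩
    ext p
    simp only [Set.mem_ofPred_eq, F]
    constructor <;> intro h <;> linarith

/-- a circle or line through three red points contains a blue point -/
lemma three_red (k l m n : ℝ) (p q s : Pt) (hp : p ∈ red) (hq : q ∈ red) (hs : s ∈ red)
    (hpq : p ≠ q) (hps : p ≠ s) (hqs : q ≠ s) (h1 : F k l m n p = 0) (h2 : F k l m n q = 0)
    (h3 : F k l m n s = 0) : ∃ t ∈ blue, F k l m n t = 0 := by
  have t0 : F k l m n (pt (0) (0)) = 0 → F k l m n (pt (-12) (6)) = 0 → F k l m n (pt (-5) (-1)) = 0 →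
      ∃ t ∈ blue, F k l m n t = 0 := by
    intro e1 e2 e3
    refine ⟨(pt (3) (3)), by simp [blue], ?_⟩
    rw [F_pt] at e1 e2 e3 ⊢
    push_cast at e1 e2 e3 ⊢
    linear_combination (2) * e1 + (2/7) * e2 + (-9/7) * e3
  have t1 : F k l m n (pt (0) (0)) = 0 → F k l m n (pt (-12) (6)) = 0 → F k l m n (pt (9) (-1)) = 0 →
      ∃ t ∈ blue, F k l m n t = 0 := by
    intro e1 e2 e3
    refine ⟨(pt (-6) (2)), by simp [blue], ?_⟩
    rw [F_pt] at e1 e2 e3 ⊢
    push_cast at e1 e2 e3 ⊢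
    linear_combination (1) * e1 + (2/7) * e2 + (-2/7) * e3
  have t2 : F k l m n (pt (0) (0)) = 0 → F k l m n (pt (-12) (6)) = 0 → F k l m n (pt (-12) (-8)) = 0 →
      ∃ t ∈ blue, F k l m n t = 0 := by
    intro e1 e2 e3
    refine ⟨(pt (0) (-2)), by simp [blue], ?_⟩
    rw [F_pt] at e1 e2 e3 ⊢
    push_cast at e1 e2 e3 ⊢
    linear_combination (1) * e1 + (-1/7) * e2 + (1/7) * e3
  have t3 : F k l m n (pt (0) (0)) = 0 → F k l m n (pt (-5) (-1)) = 0 → F k l m n (pt (9) (-1)) = 0 →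
      ∃ t ∈ blue, F k l m n t = 0 := by
    intro e1 e2 e3
    refine ⟨(pt (-9) (-3)), by simp [blue], ?_⟩
    rw [F_pt] at e1 e2 e3 ⊢
    push_cast at e1 e2 e3 ⊢
    linear_combination (-2) * e1 + (18/7) * e2 + (3/7) * e3
  have t4 : F k l m n (pt (0) (0)) = 0 → F k l m n (pt (-5) (-1)) = 0 → F k l m n (pt (-12) (-8)) = 0 →
      ∃ t ∈ blue, F k l m n t = 0 := by
    intro e1 e2 e3
    refine ⟨(pt (-9) (-3)), by simp [blue], ?_⟩
    rw [F_pt] at e1 e2 e3 ⊢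
    push_cast at e1 e2 e3 ⊢
    linear_combination (-1/2) * e1 + (9/7) * e2 + (3/14) * e3
  have t5 : F k l m n (pt (0) (0)) = 0 → F k l m n (pt (9) (-1)) = 0 → F k l m n (pt (-12) (-8)) = 0 →
      ∃ t ∈ blue, F k l m n t = 0 := by
    intro e1 e2 e3
    refine ⟨(pt (-9) (-3)), by simp [blue], ?_⟩
    rw [F_pt] at e1 e2 e3 ⊢
    push_cast at e1 e2 e3 ⊢
    linear_combination (1) * e1 + (-3/7) * e2 + (3/7) * e3
  have t6 : F k l m n (pt (-12) (6)) = 0 → F k l m n (pt (-5) (-1)) = 0 → F k l m n (pt (9) (-1)) = 0 →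
      ∃ t ∈ blue, F k l m n t = 0 := by
    intro e1 e2 e3
    refine ⟨(pt (0) (-2)), by simp [blue], ?_⟩
    rw [F_pt] at e1 e2 e3 ⊢
    push_cast at e1 e2 e3 ⊢
    linear_combination (-1/7) * e1 + (6/7) * e2 + (2/7) * e3
  have t7 : F k l m n (pt (-12) (6)) = 0 → F k l m n (pt (-5) (-1)) = 0 → F k l m n (pt (-12) (-8)) = 0 →
      ∃ t ∈ blue, F k l m n t = 0 := by
    intro e1 e2 e3
    refine ⟨(pt (-6) (2)), by simp [blue], ?_⟩
    rw [F_pt] at e1 e2 e3 ⊢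
    push_cast at e1 e2 e3 ⊢
    linear_combination (2/7) * e1 + (6/7) * e2 + (-1/7) * e3
  have t8 : F k l m n (pt (-12) (6)) = 0 → F k l m n (pt (9) (-1)) = 0 → F k l m n (pt (-12) (-8)) = 0 →
      ∃ t ∈ blue, F k l m n t = 0 := by
    intro e1 e2 e3
    refine ⟨(pt (6) (-6)), by simp [blue], ?_⟩
    rw [F_pt] at e1 e2 e3 ⊢
    push_cast at e1 e2 e3 ⊢
    linear_combination (-2/7) * e1 + (6/7) * e2 + (3/7) * e3
  have t9 : F k l m n (pt (-5) (-1)) = 0 → F k l m n (pt (9) (-1)) = 0 → F k l m n (pt (-12) (-8)) = 0 →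
      ∃ t ∈ blue, F k l m n t = 0 := by
    intro e1 e2 e3
    refine ⟨(pt (-9) (-3)), by simp [blue], ?_⟩
    rw [F_pt] at e1 e2 e3 ⊢
    push_cast at e1 e2 e3 ⊢
    linear_combination (6/7) * e1 + (-1/7) * e2 + (2/7) * e3
  simp only [red, Finset.mem_insert, Finset.mem_singleton] at hp hq hs
  rcases hp with rfl | rfl | rfl | rfl | rfl <;>
  rcases hq with rfl | rfl | rfl | rfl | rfl <;>
  first
  | exact absurd rfl hpq
  | (rcases hs with rfl | rfl | rfl | rfl | rfl <;>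
     first
     | exact absurd rfl hps
     | exact absurd rfl hqs
     | exact t0 h1 h2 h3
     | exact t0 h1 h3 h2
     | exact t0 h2 h1 h3
     | exact t0 h2 h3 h1
     | exact t0 h3 h1 h2
     | exact t0 h3 h2 h1
     | exact t1 h1 h2 h3
     | exact t1 h1 h3 h2
     | exact t1 h2 h1 h3
     | exact t1 h2 h3 h1
     | exact t1 h3 h1 h2
     | exact t1 h3 h2 h1
     | exact t2 h1 h2 h3
     | exact t2 h1 h3 h2
     | exact t2 h2 h1 h3
     | exact t2 h2 h3 h1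
     | exact t2 h3 h1 h2
     | exact t2 h3 h2 h1
     | exact t3 h1 h2 h3
     | exact t3 h1 h3 h2
     | exact t3 h2 h1 h3
     | exact t3 h2 h3 h1
     | exact t3 h3 h1 h2
     | exact t3 h3 h2 h1
     | exact t4 h1 h2 h3
     | exact t4 h1 h3 h2
     | exact t4 h2 h1 h3
     | exact t4 h2 h3 h1
     | exact t4 h3 h1 h2
     | exact t4 h3 h2 h1
     | exact t5 h1 h2 h3
     | exact t5 h1 h3 h2
     | exact t5 h2 h1 h3
     | exact t5 h2 h3 h1
     | exact t5 h3 h1 h2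
     | exact t5 h3 h2 h1
     | exact t6 h1 h2 h3
     | exact t6 h1 h3 h2
     | exact t6 h2 h1 h3
     | exact t6 h2 h3 h1
     | exact t6 h3 h1 h2
     | exact t6 h3 h2 h1
     | exact t7 h1 h2 h3
     | exact t7 h1 h3 h2
     | exact t7 h2 h1 h3
     | exact t7 h2 h3 h1
     | exact t7 h3 h1 h2
     | exact t7 h3 h2 h1
     | exact t8 h1 h2 h3
     | exact t8 h1 h3 h2
     | exact t8 h2 h1 h3
     | exact t8 h2 h3 h1
     | exact t8 h3 h1 h2
     | exact t8 h3 h2 h1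
     | exact t9 h1 h2 h3
     | exact t9 h1 h3 h2
     | exact t9 h2 h1 h3
     | exact t9 h2 h3 h1
     | exact t9 h3 h1 h2
     | exact t9 h3 h2 h1)

/-- a circle or line through three blue points contains a red point -/
lemma three_blue (k l m n : ℝ) (p q s : Pt) (hp : p ∈ blue) (hq : q ∈ blue) (hs : s ∈ blue)
    (hpq : p ≠ q) (hps : p ≠ s) (hqs : q ≠ s) (h1 : F k l m n p = 0) (h2 : F k l m n q = 0)
    (h3 : F k l m n s = 0) : ∃ t ∈ red, F k l m n t = 0 := by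
  have t0 : F k l m n (pt (3) (3)) = 0 → F k l m n (pt (-9) (-3)) = 0 → F k l m n (pt (0) (-2)) = 0 →
      ∃ t ∈ red, F k l m n t = 0 := by
    intro e1 e2 e3
    refine ⟨(pt (-12) (6)), by simp [red], ?_⟩
    rw [F_pt] at e1 e2 e3 ⊢
    push_cast at e1 e2 e3 ⊢
    linear_combination (2) * e1 + (2) * e2 + (-3) * e3
  have t1 : F k l m n (pt (3) (3)) = 0 → F k l m n (pt (-9) (-3)) = 0 → F k l m n (pt (-6) (2)) = 0 →
      ∃ t ∈ red, F k l m n t = 0 := by
    intro e1 e2 e3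
    refine ⟨(pt (9) (-1)), by simp [red], ?_⟩
    rw [F_pt] at e1 e2 e3 ⊢
    push_cast at e1 e2 e3 ⊢
    linear_combination (2) * e1 + (1) * e2 + (-2) * e3
  have t2 : F k l m n (pt (3) (3)) = 0 → F k l m n (pt (-9) (-3)) = 0 → F k l m n (pt (6) (-6)) = 0 →
      ∃ t ∈ red, F k l m n t = 0 := by
    intro e1 e2 e3
    refine ⟨(pt (9) (-1)), by simp [red], ?_⟩
    rw [F_pt] at e1 e2 e3 ⊢
    push_cast at e1 e2 e3 ⊢
    linear_combination (2/3) * e1 + (-1/3) * e2 + (2/3) * e3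
  have t3 : F k l m n (pt (3) (3)) = 0 → F k l m n (pt (0) (-2)) = 0 → F k l m n (pt (-6) (2)) = 0 →
      ∃ t ∈ red, F k l m n t = 0 := by
    intro e1 e2 e3
    refine ⟨(pt (-5) (-1)), by simp [red], ?_⟩
    rw [F_pt] at e1 e2 e3 ⊢
    push_cast at e1 e2 e3 ⊢
    linear_combination (-1/3) * e1 + (2/3) * e2 + (2/3) * e3
  have t4 : F k l m n (pt (3) (3)) = 0 → F k l m n (pt (0) (-2)) = 0 → F k l m n (pt (6) (-6)) = 0 →
      ∃ t ∈ red, F k l m n t = 0 := by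
    intro e1 e2 e3
    refine ⟨(pt (0) (0)), by simp [red], ?_⟩
    rw [F_pt] at e1 e2 e3 ⊢
    push_cast at e1 e2 e3 ⊢
    linear_combination (2/7) * e1 + (6/7) * e2 + (-1/7) * e3
  have t5 : F k l m n (pt (3) (3)) = 0 → F k l m n (pt (-6) (2)) = 0 → F k l m n (pt (6) (-6)) = 0 →
      ∃ t ∈ red, F k l m n t = 0 := by
    intro e1 e2 e3
    refine ⟨(pt (9) (-1)), by simp [red], ?_⟩
    rw [F_pt] at e1 e2 e3 ⊢
    push_cast at e1 e2 e3 ⊢
    linear_combination (1) * e1 + (-1/2) * e2 + (1/2) * e3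
  have t6 : F k l m n (pt (-9) (-3)) = 0 → F k l m n (pt (0) (-2)) = 0 → F k l m n (pt (-6) (2)) = 0 →
      ∃ t ∈ red, F k l m n t = 0 := by
    intro e1 e2 e3
    refine ⟨(pt (0) (0)), by simp [red], ?_⟩
    rw [F_pt] at e1 e2 e3 ⊢
    push_cast at e1 e2 e3 ⊢
    linear_combination (-2/7) * e1 + (6/7) * e2 + (3/7) * e3
  have t7 : F k l m n (pt (-9) (-3)) = 0 → F k l m n (pt (0) (-2)) = 0 → F k l m n (pt (6) (-6)) = 0 →
      ∃ t ∈ red, F k l m n t = 0 := by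
    intro e1 e2 e3
    refine ⟨(pt (-12) (-8)), by simp [red], ?_⟩
    rw [F_pt] at e1 e2 e3 ⊢
    push_cast at e1 e2 e3 ⊢
    linear_combination (2) * e1 + (-2) * e2 + (1) * e3
  have t8 : F k l m n (pt (-9) (-3)) = 0 → F k l m n (pt (-6) (2)) = 0 → F k l m n (pt (6) (-6)) = 0 →
      ∃ t ∈ red, F k l m n t = 0 := by
    intro e1 e2 e3
    refine ⟨(pt (9) (-1)), by simp [red], ?_⟩
    rw [F_pt] at e1 e2 e3 ⊢
    push_cast at e1 e2 e3 ⊢
    linear_combination (-1) * e1 + (1) * e2 + (1) * e3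
  have t9 : F k l m n (pt (0) (-2)) = 0 → F k l m n (pt (-6) (2)) = 0 → F k l m n (pt (6) (-6)) = 0 →
      ∃ t ∈ red, F k l m n t = 0 := by
    intro e1 e2 e3
    refine ⟨(pt (-12) (6)), by simp [red], ?_⟩
    rw [F_pt] at e1 e2 e3 ⊢
    push_cast at e1 e2 e3 ⊢
    linear_combination (-3) * e1 + (3) * e2 + (1) * e3
  simp only [blue, Finset.mem_insert, Finset.mem_singleton] at hp hq hs
  rcases hp with rfl | rfl | rfl | rfl | rfl <;>
  rcases hq with rfl | rfl | rfl | rfl | rfl <;>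
  first
  | exact absurd rfl hpq
  | (rcases hs with rfl | rfl | rfl | rfl | rfl <;>
     first
     | exact absurd rfl hps
     | exact absurd rfl hqs
     | exact t0 h1 h2 h3
     | exact t0 h1 h3 h2
     | exact t0 h2 h1 h3
     | exact t0 h2 h3 h1
     | exact t0 h3 h1 h2
     | exact t0 h3 h2 h1
     | exact t1 h1 h2 h3
     | exact t1 h1 h3 h2
     | exact t1 h2 h1 h3
     | exact t1 h2 h3 h1
     | exact t1 h3 h1 h2
     | exact t1 h3 h2 h1
     | exact t2 h1 h2 h3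
     | exact t2 h1 h3 h2
     | exact t2 h2 h1 h3
     | exact t2 h2 h3 h1
     | exact t2 h3 h1 h2
     | exact t2 h3 h2 h1
     | exact t3 h1 h2 h3
     | exact t3 h1 h3 h2
     | exact t3 h2 h1 h3
     | exact t3 h2 h3 h1
     | exact t3 h3 h1 h2
     | exact t3 h3 h2 h1
     | exact t4 h1 h2 h3
     | exact t4 h1 h3 h2
     | exact t4 h2 h1 h3
     | exact t4 h2 h3 h1
     | exact t4 h3 h1 h2
     | exact t4 h3 h2 h1
     | exact t5 h1 h2 h3
     | exact t5 h1 h3 h2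
     | exact t5 h2 h1 h3
     | exact t5 h2 h3 h1
     | exact t5 h3 h1 h2
     | exact t5 h3 h2 h1
     | exact t6 h1 h2 h3
     | exact t6 h1 h3 h2
     | exact t6 h2 h1 h3
     | exact t6 h2 h3 h1
     | exact t6 h3 h1 h2
     | exact t6 h3 h2 h1
     | exact t7 h1 h2 h3
     | exact t7 h1 h3 h2
     | exact t7 h2 h1 h3
     | exact t7 h2 h3 h1
     | exact t7 h3 h1 h2
     | exact t7 h3 h2 h1
     | exact t8 h1 h2 h3
     | exact t8 h1 h3 h2
     | exact t8 h2 h1 h3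
     | exact t8 h2 h3 h1
     | exact t8 h3 h1 h2
     | exact t8 h3 h2 h1
     | exact t9 h1 h2 h3
     | exact t9 h1 h3 h2
     | exact t9 h2 h1 h3
     | exact t9 h2 h3 h1
     | exact t9 h3 h1 h2
     | exact t9 h3 h2 h1)

lemma gen_pt (a u v q r s d e g : ℝ) (X Y : ℤ) :
    gen a u v q r s d e g (pt X Y).1 (pt X Y).2 =
      a * ((X : ℝ) ^ 2 + 3 * (Y : ℝ) ^ 2) ^ 2 +
      (u * X + (v * Real.sqrt 3) * Y) * ((X : ℝ) ^ 2 + 3 * (Y : ℝ) ^ 2) + q * (X : ℝ) ^ 2 +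
      (r * Real.sqrt 3) * X * Y + s * (3 * (Y : ℝ) ^ 2) + d * X + (e * Real.sqrt 3) * Y + g := by
  have h3 : Real.sqrt 3 ^ 2 = 3 := Real.sq_sqrt (by norm_num)
  unfold gen pt
  simp only [mul_pow, h3]
  ring

/-- The ten points impose nine independent conditions on the space of polynomials. -/
lemma not_onBig : ¬ OnBig ((red : Set Pt) ∪ blue) := by
  rintro ⟨a, u, v, q, r, s, d, e, g, hne, h⟩
  have h3 : Real.sqrt 3 ≠ 0 := by positivity
  have e0 := h (pt (0) (0)) (by simp [red])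
  have e1 := h (pt (-12) (6)) (by simp [red])
  have e2 := h (pt (-5) (-1)) (by simp [red])
  have e3 := h (pt (9) (-1)) (by simp [red])
  have e4 := h (pt (-12) (-8)) (by simp [red])
  have e5 := h (pt (3) (3)) (by simp [blue])
  have e6 := h (pt (-9) (-3)) (by simp [blue])
  have e7 := h (pt (0) (-2)) (by simp [blue])
  have e8 := h (pt (-6) (2)) (by simp [blue])
  have e9 := h (pt (6) (-6)) (by simp [blue])
  rw [gen_pt] at e0 e1 e2 e3 e4 e5 e6 e7 e8 e9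
  push_cast at e0 e1 e2 e3 e4 e5 e6 e7 e8 e9
  have ha : a = 0 := by
    linear_combination (1/98784) * e1 + (1/5488) * e2 + (1/98784) * e3 + (1/98784) * e4 + (-1/14112) * e6 + (-1/14112) * e7 + (-1/14112) * e8
  have hu : u = 0 := by
    linear_combination (-1/336) * e0 + (-1/49392) * e1 + (3/686) * e2 + (1/3087) * e3 + (1/7056) * e4 + (1/1764) * e5 + (-1/588) * e6 + (-1/7056) * e7 + (-1/1764) * e8
  have hv : v * Real.sqrt 3 = 0 := by
    linear_combination (-1/1008) * e0 + (1/2352) * e1 + (9/2744) * e2 + (-1/8232) * e3 + (-1/5488) * e4 + (1/1176) * e5 + (-1/3528) * e6 + (-1/2352) * e7 + (-1/392) * e8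
  have hq : q = 0 := by
    linear_combination (-1/252) * e0 + (-1/3087) * e1 + (-9/686) * e2 + (47/8232) * e3 + (-11/8232) * e4 + (-1/1764) * e5 + (13/1176) * e6 + (-1/294) * e7 + (1/168) * e8
  have hr : r * Real.sqrt 3 = 0 := by
    linear_combination (5/4116) * e1 + (18/343) * e2 + (-4/1029) * e3 + (-1/2058) * e4 + (1/42) * e5 + (1/294) * e6 + (-19/588) * e7 + (-13/294) * e8
  have hs : 3 * s = 0 := by
    linear_combination (-5/28) * e0 + (-5/1372) * e1 + (-9/343) * e2 + (-3/392) * e3 + (5/2744) * e4 + (9/196) * e5 + (-3/392) * e6 + (25/196) * e7 + (19/392) * e8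
  have hd : d = 0 := by
    linear_combination (17/84) * e0 + (1/1029) * e1 + (-108/343) * e2 + (13/686) * e3 + (-13/1372) * e4 + (-1/147) * e5 + (29/294) * e6 + (1/49) * e7 + (-1/98) * e8
  have he : e * Real.sqrt 3 = 0 := by
    linear_combination (13/84) * e0 + (-4/343) * e1 + (-27/343) * e2 + (-9/686) * e3 + (9/1372) * e4 + (4/49) * e5 + (-5/294) * e6 + (-12/49) * e7 + (6/49) * e8
  have hg : g = 0 := by
    linear_combination (1) * e0
  have hv' : v = 0 := by simpa [h3] using hv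
  have hr' : r = 0 := by simpa [h3] using hr
  have he' : e = 0 := by simpa [h3] using he
  have hs' : s = 0 := by linarith
  exact hne ⟨ha, hu, hv', hq, hr', hs', hd, he', hg⟩

lemma red_not_subset {C : Set Pt} (h : IsCircle C ∨ IsLine C) : ¬ (((red : Finset Pt) : Set Pt) ⊆ C) := by
  intro hsub
  obtain ⟨k, l, m, n, hne, rfl⟩ := exists_F h
  have h3 : Real.sqrt 3 ≠ 0 := by positivity
  have e0 : F k l m n (pt (0) (0)) = 0 := hsub (by simp [red])
  have e1 : F k l m n (pt (-12) (6)) = 0 := hsub (by simp [red])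
  have e2 : F k l m n (pt (-5) (-1)) = 0 := hsub (by simp [red])
  have e3 : F k l m n (pt (9) (-1)) = 0 := hsub (by simp [red])
  have e4 : F k l m n (pt (-12) (-8)) = 0 := hsub (by simp [red])
  rw [F_pt] at e0 e1 e2 e3 e4
  push_cast at e0 e1 e2 e3 e4
  have hk : k = 0 := by
    linear_combination (-1/84) * e0 + (1/588) * e1 + (1/196) * e2 + (1/196) * e3
  have hl : l = 0 := by
    linear_combination (1/21) * e0 + (-1/147) * e1 + (-9/98) * e2 + (5/98) * e3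
  have hm : m * Real.sqrt 3 = 0 := by
    linear_combination (3/7) * e0 + (4/49) * e1 + (-39/98) * e2 + (-11/98) * e3
  have hm' : m = 0 := by simpa [h3] using hm
  exact hne ⟨hk, hl, hm'⟩

lemma blue_not_subset {C : Set Pt} (h : IsCircle C ∨ IsLine C) : ¬ (((blue : Finset Pt) : Set Pt) ⊆ C) := by
  intro hsub
  obtain ⟨k, l, m, n, hne, rfl⟩ := exists_F h
  have h3 : Real.sqrt 3 ≠ 0 := by positivity
  have e0 : F k l m n (pt (3) (3)) = 0 := hsub (by simp [blue])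
  have e1 : F k l m n (pt (-9) (-3)) = 0 := hsub (by simp [blue])
  have e2 : F k l m n (pt (0) (-2)) = 0 := hsub (by simp [blue])
  have e3 : F k l m n (pt (-6) (2)) = 0 := hsub (by simp [blue])
  have e4 : F k l m n (pt (6) (-6)) = 0 := hsub (by simp [blue])
  rw [F_pt] at e0 e1 e2 e3 e4
  push_cast at e0 e1 e2 e3 e4
  have hk : k = 0 := by
    linear_combination (1/84) * e0 + (1/84) * e1 + (-1/84) * e2 + (-1/84) * e3
  have hl : l = 0 := by
    linear_combination (5/42) * e0 + (1/42) * e1 + (-1/7) * e3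
  have hm : m * Real.sqrt 3 = 0 := by
    linear_combination (1/14) * e0 + (-1/14) * e1 + (-1/7) * e2 + (1/7) * e3
  have hm' : m = 0 := by simpa [h3] using hm
  exact hne ⟨hk, hl, hm'⟩

lemma disjoint_red_blue : Disjoint red blue := by
  classical
  rw [Finset.disjoint_left]
  intro p hp hq
  simp only [red, blue, Finset.mem_insert, Finset.mem_singleton] at hp hq
  rcases hp with rfl | rfl | rfl | rfl | rfl <;> simp [pt_inj] at hq

lemma not_mono {C : Set Pt} (h : IsCircle C ∨ IsLine C) : ¬ IsMonochromatic C red blue := by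
  obtain ⟨k, l, m, n, hne, rfl⟩ := exists_F h
  rintro ⟨h3, hcol⟩
  have hfin : (({p | F k l m n p = 0} ∩ ((red : Set Pt) ∪ blue) : Set Pt)).Finite :=
    Set.Finite.subset ((Finset.finite_toSet red).union (Finset.finite_toSet blue))
      Set.inter_subset_right
  obtain ⟨p, q, s, hp, hq, hs, hpq, hps, hqs⟩ := (Set.two_lt_ncard_iff hfin).1 h3
  rcases hcol with hcol | hcol
  · obtain ⟨t, ht, ht0⟩ := three_red k l m n p q s (by simpa using hcol hp) (by simpa using hcol hq)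
      (by simpa using hcol hs) hpq hps hqs hp.1 hq.1 hs.1
    have : t ∈ ({p | F k l m n p = 0} ∩ ((red : Set Pt) ∪ blue) : Set Pt) :=
      ⟨ht0, Or.inr (by simpa using ht)⟩
    exact (Finset.disjoint_left.1 disjoint_red_blue) (by simpa using hcol this) ht
  · obtain ⟨t, ht, ht0⟩ := three_blue k l m n p q s (by simpa using hcol hp)
      (by simpa using hcol hq) (by simpa using hcol hs) hpq hps hqs hp.1 hq.1 hs.1
    have : t ∈ ({p | F k l m n p = 0} ∩ ((red : Set Pt) ∪ blue) : Set Pt) :=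
      ⟨ht0, Or.inl (by simpa using ht)⟩
    exact (Finset.disjoint_left.1 disjoint_red_blue) ht (by simpa using hcol this)

/-- There are disjoint finite sets `R` (red) and `B` (blue) of points of the plane, not all on a
circle or on a line, such that no circle and no line is monochromatic, neither colour class is
contained in a circle or in a line, and `R ∪ B` does not lie, up to inversion, on an ellipse, on a
union of two disjoint circles, on a circular cubic or on a bicircular quartic. -/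
theorem result : ∃ R B : Finset Pt, Disjoint R B ∧
    (∀ C : Set Pt, IsCircle C ∨ IsLine C →
      ¬ ((R : Set Pt) ∪ B ⊆ C) ∧ ¬ IsMonochromatic C R B ∧
      ¬ ((R : Set Pt) ⊆ C) ∧ ¬ ((B : Set Pt) ⊆ C)) ∧
    (∀ Γ : Set Pt,
      IsEllipse Γ ∨ IsTwoDisjointCircles Γ ∨ IsCircularCubic Γ ∨ IsBicircularQuartic Γ →
      ¬ LiesUpToInversion ((R : Set Pt) ∪ B) Γ) := by
  refine ⟨red, blue, disjoint_red_blue, fun C hC => ⟨fun h => ?_, not_mono hC,
    red_not_subset hC, blue_not_subset hC⟩, fun Γ hΓ h => ?_⟩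
  · exact red_not_subset hC (Set.subset_union_left.trans h)
  · exact not_onBig (onBig_of_liesUpToInversion (onBig_of_type hΓ) h)

end Pool.Agent.Results.MP_048963_co.TenPoints
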